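import Pool.Agent.H581R2.SplayItin

set_option autoImplicit false

/-! Every itinerary of a pointer in the tree (with optional rotations of the edges traversed) is
served by splaying at constant cost per step, with no additive term. -/

namespace Pool.Agent.Results.MP_c42954_lc.Itineraries

open Pool.Agent.H581R2.Splay

theorem result {u : ℕ} {l r : Tr} {X : List ℕ} (hb : IsBST (Tr.node u l r))
    (h : Itin [] l u r X) : costSplay (Tr.node u l r) X ≤ 24 * X.length :=
  splay_itin hb h

end Pool.Agent.Results.MP_c42954_lc.Itineraries
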