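import Pool.Agent.H581R2.SplayRun

set_option autoImplicit false

/-! Splaying is at most six times as expensive as every execution that reads and moves to the
root at will, all other rotations being charged by the size of the subtree they happen in. -/

namespace Pool.Agent.Results.MP_c42954_lc.MoveToRoot

open Pool.Agent.H581R2.Splay

theorem result {T : Tr} {X : List ℕ} {c : ℕ} (hb : IsBST T) (hX : ∀ x ∈ X, x ∈ keys T)
    (h : Run T X c) : costSplay T X ≤ 6 * c :=
  splay_le_run hb hX h

end Pool.Agent.Results.MP_c42954_lc.MoveToRoot
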