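import Pool.Agent.H547S2.Splay

/-!
# Dynamic optimality of splay trees: nearly free request sequences decide
-/

set_option autoImplicit false

namespace Pool.Agent.Results.MP_c42954_lc.NearlyFree

open Pool.Agent.H581R2.Splay Pool.Agent.H547S2

/-- For every `k ≥ 1`: if splaying costs at most `C` per request whenever there is an execution of
cost at most `1 + 1/k` per request, then splaying is `9 k C`-competitive; and conversely. -/
theorem result (k : ℕ) (hk : 1 ≤ k) :
    (∀ C, NearlyFree k C → Competitive (9 * k * C)) ∧
      (∀ C, Competitive C → NearlyFree k (2 * C)) :=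
  ⟨fun C h => comp_of_free k C hk h, fun C h => free_of_comp k C hk h⟩

end Pool.Agent.Results.MP_c42954_lc.NearlyFree
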